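import Pool.Agent.helper69.SN.SpecA

/-!
Row sn:aCLO: consequences of superadditivity.
-/

open scoped Pointwise ContDiff
open MeasureTheory Set Filter Topology

namespace Pool.Agent.helper50.SN

open Pool.Agent.helper83.SC Pool.Agent.helper69.SN

theorem CLO_sc_one {m n : ℕ} (B : Fin n → Mat m) : sc (fun _ => (1:ℝ)) B = B := by
  funext i; simp [sc]

theorem CLO_psd {m n : ℕ} {B : Fin n → Mat m} (hB : Psd B) {lam : Fin n → ℝ}
    (hl : ∀ i, 0 ≤ lam i) : Psd (sc lam B) := fun i => (hB i).smul (hl i)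

theorem CLO_smul (hHOM : aHOM_stmt) (hPSD : aPSD_stmt) {m n : ℕ} {B : Fin n → Mat m} (hB : Psd B)
    {c : ℝ} {M : Mat m} (hc : 0 ≤ c) (hM : M ∈ GG B) : c • M ∈ GG (sc (fun _ => c) B) := by
  rcases hc.eq_or_lt with h | h
  · rw [← h, zero_smul]
    exact hPSD _ (CLO_psd hB fun _ => le_refl 0) 0 Matrix.PosSemidef.zero
  · refine ⟨?_, ?_⟩
    · have := hM.1
      rw [Matrix.IsSymm] at this ⊢
      rw [Matrix.transpose_smul, this]
    · intro t ht
      have h1 := hM.2 (t / c) (by positivity)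
      have h2 := (hHOM B M (M + (t / c) • (1 : Mat m)) c 0).1
      have h3 : c • (M + (t / c) • (1 : Mat m)) = c • M + t • (1 : Mat m) := by
        rw [smul_add, smul_smul, mul_div_cancel₀ _ h.ne']
      rw [h3] at h2
      rw [h2]
      calc t ^ m = c ^ m * (t / c) ^ m := by rw [← mul_pow, mul_div_cancel₀ _ h.ne']
        _ ≤ _ := mul_le_mul_of_nonneg_left h1 (by positivity)

/-- Row sn:aCLO. -/
theorem CLO (hHOM : aHOM_stmt) (hPSD : aPSD_stmt) (hSUP : aSUP_stmt) : aCLO_stmt := by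
  intro m n B hB
  have hzero : ∀ lam : Fin n → ℝ, (∀ i, 0 ≤ lam i) → (0 : Mat m) ∈ GG (sc lam B) := fun lam hl =>
    hPSD _ (CLO_psd hB hl) 0 Matrix.PosSemidef.zero
  have h5 : ∀ (c : ℝ) (M : Mat m), 0 ≤ c → M ∈ GG B → c • M ∈ GG (sc (fun _ => c) B) :=
    fun c M hc hM => CLO_smul hHOM hPSD hB hc hM
  have h4 : ∀ lam mu : Fin n → ℝ, (∀ i, 0 ≤ lam i) → (∀ i, lam i ≤ mu i) →
      GG (sc lam B) ⊆ GG (sc mu B) := by
    intro lam mu h0 h1 M hM
    have h2 := (hSUP B hB lam (fun i => mu i - lam i) h0 (fun i => sub_nonneg.2 (h1 i)) M 0 hM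
      (hzero _ fun i => sub_nonneg.2 (h1 i))).1
    simpa using h2
  refine ⟨?_, ?_, ?_, h4, h5, ?_, ?_⟩
  · intro M hM N hN a b ha hb hab
    have h1 := (hSUP B hB (fun _ => a) (fun _ => b) (fun _ => ha) (fun _ => hb) _ _
      (h5 a M ha hM) (h5 b N hb hN)).1
    simp only [hab, CLO_sc_one] at h1
    exact h1
  · intro M A hM hA
    have h1 := (hSUP B hB (fun _ => 1) (fun _ => 0) (fun _ => zero_le_one) (fun _ => le_refl 0) M A
      (by rw [CLO_sc_one]; exact hM) (hPSD _ (CLO_psd hB fun _ => le_refl 0) A hA)).1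
    simpa [CLO_sc_one] using h1
  · intro M hM
    have h1 := hM.2 0 le_rfl
    rw [zero_smul, add_zero] at h1
    exact le_trans (by positivity) h1
  · intro c M hc hc1 hM
    have h1 := h4 (fun _ => c) (fun _ => 1) (fun _ => hc) (fun _ => hc1) (h5 c M hc hM)
    rwa [CLO_sc_one] at h1
  · intro L M hL hM
    have hL0 : 0 < L := by linarith
    have hLi : 0 ≤ L⁻¹ := inv_nonneg.2 hL0.le
    have hLi1 : L⁻¹ ≤ 1 := inv_le_one_of_one_le₀ hL
    have h1 := (hSUP B hB (fun _ => L⁻¹) (fun _ => 1 - L⁻¹) (fun _ => hLi)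
      (fun _ => sub_nonneg.2 hLi1) _ _ (h5 L⁻¹ M hLi hM) (hzero _ fun _ => sub_nonneg.2 hLi1)).2
    simp only [add_sub_cancel, CLO_sc_one, add_zero] at h1
    have h2 := (hHOM B M M L⁻¹ 0).1
    rw [h2] at h1
    calc Ph B M = L ^ m * (L⁻¹ ^ m * Ph B M) := by
          rw [← mul_assoc, ← mul_pow, mul_inv_cancel₀ hL0.ne', one_pow, one_mul]
      _ ≤ _ := mul_le_mul_of_nonneg_left h1 (by positivity)

end Pool.Agent.helper50.SN
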