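import Pool.Agent.helper28.SN.SpecC

/-!
Row sn:cCNT: continuity of the operators.
-/

set_option autoImplicit false

open scoped Pointwise ContDiff
open MeasureTheory Set Filter Topology Pool.Agent.helper83.SC Pool.Agent.helper69.SN

namespace Pool.Agent.helper28.SN

theorem cCNT_aux {X : Type} [TopologicalSpace X] {m n : ℕ} {r : ℕ} {p : X → (Fin n → Mat m)}
    {q s : X → Mat m}
    (h : Continuous (fun p : (Fin n → Mat m) × Mat m × Mat m => dPh p.1 r p.2.1 p.2.2))
    (hp : Continuous p) (hq : Continuous q) (hs : Continuous s) :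
    Continuous fun x => dPh (p x) r (q x) (s x) := by
  have h4 : Continuous fun x : X => (p x, q x, s x) := hp.prodMk (hq.prodMk hs)
  have h5 := h.comp h4
  simpa only [Function.comp_def] using h5

/-- Row sn:cCNT. -/
theorem cCNT (h1 : aCNT_stmt) (h2 : continuous_hess_stmt) : cCNT_stmt := by
  intro m n a lam b u r ha hb hu
  have h3 := (h1 (m := m) (n := n) r).1
  refine cCNT_aux (p := fun x => hs a lam x) (q := fun x => hess b x) (s := fun x => hess u x)
    h3 ?_ (h2 hb) (h2 hu)
  refine continuous_pi fun i => ?_
  have h6 : Continuous fun x => lam i • hess (a i) x := (h2 (ha i)).const_smul (lam i)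
  exact h6

end Pool.Agent.helper28.SN
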